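import Pool.Agent.Helper25.HL.Goals3

/-!
# Project HL: packet LPD (restrictions of a functional to the levels)
-/

set_option autoImplicit false

namespace Pool.Agent.Helper22.HL

open Pool.Agent.Helper25.HL

/-- almost norming vectors with real positive values -/
theorem norming {E : Type} [NormedAddCommGroup E] [NormedSpace ℂ E] (g : E →L[ℂ] ℂ) {t : ℝ}
    (ht0 : 0 < t) (ht : t < 1) : ∃ x : E, ‖x‖ ≤ 1 ∧ ∃ c : ℝ, g x = (c : ℂ) ∧ t * ‖g‖ ≤ c := by
  rcases (norm_nonneg g).eq_or_lt with h0 | h0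
  · refine ⟨0, by simp, 0, by simp, ?_⟩
    rw [← h0, mul_zero]
  · have h1 : t * ‖g‖ < ‖g‖ := by nlinarith
    obtain ⟨x, hx1, hx2⟩ := g.exists_lt_apply_of_lt_opNorm h1
    have hpos : 0 < ‖g x‖ := lt_of_le_of_lt (by positivity) hx2
    refine ⟨((starRingEnd ℂ) (g x) / (‖g x‖ : ℂ)) • x, ?_, ‖g x‖, ?_, hx2.le⟩
    · rw [norm_smul, norm_div, RCLike.norm_conj, Complex.norm_real, norm_norm, div_self hpos.ne',
        one_mul]
      exact hx1.le
    · rw [map_smul, smul_eq_mul, div_mul_eq_mul_div, mul_comm, Complex.mul_conj,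
        Complex.normSq_eq_norm_sq, pow_two]
      push_cast
      rw [mul_div_assoc, div_self (by exact_mod_cast hpos.ne'), mul_one]

theorem fin_le (P : ℕ → ℕ) (D : ∀ k, Lv (P k) (P (k + 1))) (f : XX P D →L[ℂ] ℂ)
    (s : Finset ℕ) : ∑ k ∈ s, ‖f.comp (emb P D k)‖ ^ 2 ≤ ‖f‖ ^ 2 := by
  set S : ℝ := ∑ k ∈ s, ‖f.comp (emb P D k)‖ ^ 2 with hS
  have hS0 : 0 ≤ S := Finset.sum_nonneg fun _ _ => by positivity
  by_contra hcon
  rw [not_le] at hcon
  have hSpos : 0 < S := lt_of_le_of_lt (by positivity) hcon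
  have hr : ‖f‖ < Real.sqrt S := Real.lt_sqrt_of_sq_lt hcon
  have hrpos : 0 < Real.sqrt S := Real.sqrt_pos.2 hSpos
  have key : ∀ t : ℝ, 0 < t → t < 1 → t * Real.sqrt S ≤ ‖f‖ := by
    intro t ht0 ht1
    choose x hx1 c hc1 hc2 using fun k => norming (f.comp (emb P D k)) ht0 ht1
    set y : XX P D := ∑ k ∈ s,
      lp.single 2 k (((‖f.comp (emb P D k)‖ : ℝ) : ℂ) • x k) with hy
    have hny : ‖y‖ ^ 2 ≤ S := by
      have h := lp.norm_sum_single (p := 2) (by norm_num)
        (fun k => ((‖f.comp (emb P D k)‖ : ℝ) : ℂ) • x k) s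
      rw [ENNReal.toReal_ofNat, Real.rpow_two] at h
      rw [hy, h, hS]
      refine Finset.sum_le_sum fun k _ => ?_
      rw [Real.rpow_two, norm_smul, Complex.norm_real, norm_norm]
      refine pow_le_pow_left₀ (by positivity) ?_ 2
      exact mul_le_of_le_one_right (norm_nonneg _) (hx1 k)
    have hfy : f y = ((∑ k ∈ s, ‖f.comp (emb P D k)‖ * c k : ℝ) : ℂ) := by
      rw [hy, map_sum]
      push_cast
      refine Finset.sum_congr rfl fun k _ => ?_
      rw [← hc1 k, ← smul_eq_mul, ← map_smul]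
      rfl
    have h1 : t * S ≤ ∑ k ∈ s, ‖f.comp (emb P D k)‖ * c k := by
      rw [hS, Finset.mul_sum]
      refine Finset.sum_le_sum fun k _ => ?_
      have := mul_le_mul_of_nonneg_left (hc2 k) (norm_nonneg (f.comp (emb P D k)))
      nlinarith
    have h2 : t * S ≤ ‖f‖ * Real.sqrt S := by
      have h3 := f.le_opNorm y
      rw [hfy, Complex.norm_real, Real.norm_eq_abs] at h3
      have h4 : ‖y‖ ≤ Real.sqrt S := Real.le_sqrt_of_sq_le hny
      calc t * S ≤ _ := h1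
        _ ≤ _ := le_abs_self _
        _ ≤ ‖f‖ * ‖y‖ := h3
        _ ≤ _ := by gcongr
    have h5 : t * Real.sqrt S * Real.sqrt S ≤ ‖f‖ * Real.sqrt S := by
      rw [mul_assoc, Real.mul_self_sqrt hS0]; exact h2
    exact le_of_mul_le_mul_right h5 hrpos
  have h := key ((‖f‖ / Real.sqrt S + 1) / 2) (by positivity) (by
    have : ‖f‖ / Real.sqrt S < 1 := (div_lt_one hrpos).2 hr
    linarith)
  have h6 : (‖f‖ / Real.sqrt S + 1) / 2 * Real.sqrt S = (‖f‖ + Real.sqrt S) / 2 := by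
    field_simp
  rw [h6] at h
  linarith

theorem lpd : S_LPD := by
  intro P D f
  have hsum : Summable (fun k => ‖f.comp (emb P D k)‖ ^ 2) :=
    summable_of_sum_le (fun _ => by positivity) (fin_le P D f)
  exact ⟨hsum, hsum.tsum_le_of_sum_le (fin_le P D f)⟩

end Pool.Agent.Helper22.HL
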