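import Pool.Agent.Helper25.HL.Goals1

/-!
# Project HL: packet TIK (regularised projection onto the span of noisy labels)
-/

set_option autoImplicit false

open Matrix

namespace Pool.Agent.Helper22.HL

open Pool.Agent.Helper25.HL

variable {κ ι μ : Type} [Fintype κ] [Fintype ι] [Fintype μ]

theorem sq_nonneg' (x : κ → ℂ) : 0 ≤ Helper25.HL.sq x := Finset.sum_nonneg fun _ _ => by positivity

theorem ip_eq (x y : κ → ℂ) : ip x y = star x ⬝ᵥ y := rfl

theorem ip_self (x : κ → ℂ) : ip x x = ((Helper25.HL.sq x : ℝ) : ℂ) := by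
  unfold ip Helper25.HL.sq
  push_cast
  refine Finset.sum_congr rfl fun t _ => ?_
  rw [← Complex.normSq_eq_conj_mul_self, Complex.normSq_eq_norm_sq]
  push_cast
  rfl

theorem ip_mulVec (T : Matrix κ ι ℂ) (x : κ → ℂ) (v : ι → ℂ) :
    ip x (T.mulVec v) = ip (Tᴴ.mulVec x) v := by
  rw [ip_eq, ip_eq, dotProduct_mulVec, star_mulVec, conjTranspose_conjTranspose]

theorem cs (x y : κ → ℂ) : ‖ip x y‖ ^ 2 ≤ Helper25.HL.sq x * Helper25.HL.sq y := by
  have h1 : ‖ip x y‖ ≤ ∑ t, ‖x t‖ * ‖y t‖ := by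
    unfold ip
    refine (norm_sum_le _ _).trans (Finset.sum_le_sum fun t _ => ?_)
    rw [norm_mul, RCLike.norm_conj]
  refine (pow_le_pow_left₀ (norm_nonneg _) h1 2).trans ?_
  exact Finset.sum_mul_sq_le_sq_mul_sq _ _ _

/-- from `t ^ 2 ≤ c t s` to `t ≤ c s` -/
theorem cancel {t c s : ℝ} (ht : 0 ≤ t) (hcs : 0 ≤ c * s) (h : t ^ 2 ≤ c * t * s) : t ≤ c * s := by
  rcases ht.eq_or_lt with h0 | h0
  · rw [← h0]; exact hcs
  · nlinarith

theorem adj (T : Matrix κ ι ℂ) {c : ℝ} (hc : 0 ≤ c) (h : ∀ v, Helper25.HL.sq (T.mulVec v) ≤ c * Helper25.HL.sq v)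
    (x : κ → ℂ) : Helper25.HL.sq (Tᴴ.mulVec x) ≤ c * Helper25.HL.sq x := by
  have h1 : ip x (T.mulVec (Tᴴ.mulVec x)) = ((Helper25.HL.sq (Tᴴ.mulVec x) : ℝ) : ℂ) := by
    rw [ip_mulVec, ip_self]
  have h2 := cs x (T.mulVec (Tᴴ.mulVec x))
  rw [h1, Complex.norm_real, Real.norm_eq_abs, sq_abs] at h2
  refine cancel (sq_nonneg' _) (mul_nonneg hc (sq_nonneg' _)) (h2.trans ?_)
  have h3 := mul_le_mul_of_nonneg_left (h (Tᴴ.mulVec x)) (sq_nonneg' x)
  linarith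

/-- the main bound -/
theorem bnd [DecidableEq κ] {X W : Matrix κ κ ℂ} (hW : Wᴴ * W = X⁻¹) (hX : IsUnit X)
    (D : Matrix κ ι ℂ) {c : ℝ} (hc : 0 ≤ c)
    (hD : ∀ x, Helper25.HL.sq (Dᴴ.mulVec x) ≤ c * (ip x (X.mulVec x)).re) (v : ι → ℂ) :
    Helper25.HL.sq (W.mulVec (D.mulVec v)) ≤ c * Helper25.HL.sq v := by
  have hXX : X * X⁻¹ = 1 := Matrix.mul_nonsing_inv X ((Matrix.isUnit_iff_isUnit_det X).1 hX)
  have h1 : ip (X⁻¹.mulVec (D.mulVec v)) (D.mulVec v) =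
      ((Helper25.HL.sq (W.mulVec (D.mulVec v)) : ℝ) : ℂ) := by
    rw [← ip_self, ip_mulVec W, mulVec_mulVec (D.mulVec v) Wᴴ W, hW]
  have h2 : ip (X⁻¹.mulVec (D.mulVec v)) (X.mulVec (X⁻¹.mulVec (D.mulVec v))) =
      ((Helper25.HL.sq (W.mulVec (D.mulVec v)) : ℝ) : ℂ) := by
    rw [mulVec_mulVec (D.mulVec v) X X⁻¹, hXX, one_mulVec, h1]
  have h3 := hD (X⁻¹.mulVec (D.mulVec v))
  rw [h2, Complex.ofReal_re] at h3
  have h4 := cs (Dᴴ.mulVec (X⁻¹.mulVec (D.mulVec v))) v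
  rw [← ip_mulVec, h1, Complex.norm_real, Real.norm_eq_abs, sq_abs] at h4
  refine cancel (sq_nonneg' _) (mul_nonneg hc (sq_nonneg' _)) (h4.trans ?_)
  exact mul_le_mul_of_nonneg_right h3 (sq_nonneg' v)

/-- square of the Frobenius norm -/
noncomputable def fro (M : Matrix κ ι ℂ) : ℝ := ∑ j, Helper25.HL.sq (fun x => M x j)

theorem fro_nonneg (M : Matrix κ ι ℂ) : 0 ≤ fro M := Finset.sum_nonneg fun _ _ => sq_nonneg' _

theorem fro_conjTranspose (M : Matrix κ ι ℂ) : fro Mᴴ = fro M := by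
  unfold fro Helper25.HL.sq
  rw [Finset.sum_comm]
  refine Finset.sum_congr rfl fun i _ => Finset.sum_congr rfl fun j _ => ?_
  change ‖star (M j i)‖ ^ 2 = ‖M j i‖ ^ 2
  rw [norm_star]

theorem fro_mul_le (T : Matrix μ κ ℂ) (M : Matrix κ ι ℂ) {c : ℝ}
    (h : ∀ v, Helper25.HL.sq (T.mulVec v) ≤ c * Helper25.HL.sq v) : fro (T * M) ≤ c * fro M := by
  unfold fro
  rw [Finset.mul_sum]
  exact Finset.sum_le_sum fun j _ => h (fun x => M x j)

omit [Fintype κ] in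
theorem sum_smul_eq (a : ι → κ → ℂ) (v : ι → ℂ) :
    ∑ j, v j • a j = (Matrix.of fun x j => a j x).mulVec v := by
  funext x
  simp [mulVec, dotProduct, mul_comm]

theorem ip_add (x y z : κ → ℂ) : ip x (y + z) = ip x y + ip x z := by
  rw [ip_eq, ip_eq, ip_eq, dotProduct_add]

theorem ip_smul (c : ℂ) (x y : κ → ℂ) : ip x (c • y) = c * ip x y := by
  rw [ip_eq, ip_eq, dotProduct_smul, smul_eq_mul]

theorem ip_mul_conj (D : Matrix κ ι ℂ) (x : κ → ℂ) :
    ip x ((D * Dᴴ).mulVec x) = ((Helper25.HL.sq (Dᴴ.mulVec x) : ℝ) : ℂ) := by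
  rw [← mulVec_mulVec, ip_mulVec, ip_self]

theorem sq_smul (c : ℂ) (x : κ → ℂ) : Helper25.HL.sq (c • x) = ‖c‖ ^ 2 * Helper25.HL.sq x := by
  unfold Helper25.HL.sq
  rw [Finset.mul_sum]
  refine Finset.sum_congr rfl fun t _ => ?_
  rw [Pi.smul_apply, norm_smul, mul_pow]

theorem fro_one [DecidableEq κ] : fro (1 : Matrix κ κ ℂ) = Fintype.card κ := by
  unfold fro Helper25.HL.sq
  have h : ∀ j : κ, ∑ t, ‖(1 : Matrix κ κ ℂ) t j‖ ^ 2 = 1 := by
    intro j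
    rw [Finset.sum_eq_single j]
    · simp
    · intro t _ ht
      simp [Matrix.one_apply_ne ht]
    · intro h; exact absurd (Finset.mem_univ j) h
  rw [Finset.sum_congr rfl fun j _ => h j]
  simp

theorem fro_add3 (P Q R : Matrix κ ι ℂ) :
    fro (P + Q + R) ≤ 3 * (fro P + fro Q + fro R) := by
  unfold fro Helper25.HL.sq
  rw [← Finset.sum_add_distrib, ← Finset.sum_add_distrib, Finset.mul_sum]
  refine Finset.sum_le_sum fun j _ => ?_
  rw [← Finset.sum_add_distrib, ← Finset.sum_add_distrib, Finset.mul_sum]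
  refine Finset.sum_le_sum fun x _ => ?_
  have h := norm_add₃_le (a := P x j) (b := Q x j) (c := R x j)
  have h2 : ‖(P + Q + R) x j‖ ≤ ‖P x j‖ + ‖Q x j‖ + ‖R x j‖ := h
  have h3 := pow_le_pow_left₀ (norm_nonneg _) h2 2
  nlinarith [sq_nonneg (‖P x j‖ - ‖Q x j‖), sq_nonneg (‖P x j‖ - ‖R x j‖),
    sq_nonneg (‖Q x j‖ - ‖R x j‖)]

theorem fro_smul (c : ℂ) (M : Matrix κ ι ℂ) : fro (c • M) = ‖c‖ ^ 2 * fro M := by
  unfold fro
  rw [Finset.mul_sum]
  exact Finset.sum_congr rfl fun j _ => sq_smul c (fun x => M x j)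

theorem fro_fromCols (M : Matrix κ ι ℂ) (N : Matrix κ μ ℂ) :
    fro (Matrix.fromCols M N) = fro M + fro N := by
  unfold fro
  rw [Fintype.sum_sum_type]
  rfl

open scoped ComplexOrder MatrixOrder in
theorem tik : S_TIK := by
  intro κ ι _ _ _ a b ε₃ ϵ h3 h31 he
  set A : Matrix κ ι ℂ := Matrix.of fun x j => a j x with hAdef
  set B : Matrix κ ι ℂ := Matrix.of fun x j => b j x with hBdef
  set r : ℝ := Real.sqrt ε₃⁻¹ with hr
  set e : ℝ := Real.sqrt ϵ with hedef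
  have hr2 : r ^ 2 = ε₃⁻¹ := Real.sq_sqrt (inv_nonneg.2 h3.le)
  have he2 : e ^ 2 = ϵ := Real.sq_sqrt he.le
  set G : Matrix κ (ι ⊕ κ) ℂ :=
    Matrix.fromCols ((r : ℂ) • B) ((e : ℂ) • (1 : Matrix κ κ ℂ)) with hG
  set Z : Matrix κ κ ℂ := G * Gᴴ with hZ
  have hZ' : Z = ((ε₃⁻¹ : ℝ) : ℂ) • (B * Bᴴ) + ((ϵ : ℝ) : ℂ) • (1 : Matrix κ κ ℂ) := by
    rw [hZ, hG, Matrix.conjTranspose_fromCols_eq_fromRows_conjTranspose,
      Matrix.fromCols_mul_fromRows, conjTranspose_smul, conjTranspose_smul, conjTranspose_one,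
      Matrix.smul_mul, Matrix.mul_smul, smul_smul, Matrix.smul_mul, Matrix.mul_smul, smul_smul,
      Matrix.one_mul, ← hr2, ← he2, Complex.star_def, Complex.conj_ofReal, Complex.conj_ofReal]
    congr 2
    · push_cast; ring
    · push_cast; ring
  set X : Matrix κ κ ℂ := A * Aᴴ + Z with hX
  have hpd : X.PosDef := by
    rw [hX, hZ']
    have h1 : (A * Aᴴ).PosSemidef := posSemidef_self_mul_conjTranspose A
    have h2 : (((ε₃⁻¹ : ℝ) : ℂ) • (B * Bᴴ)).PosSemidef :=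
      (posSemidef_self_mul_conjTranspose B).smul
        (Complex.zero_le_real.2 (inv_nonneg.2 h3.le))
    have h4 : (((ϵ : ℝ) : ℂ) • (1 : Matrix κ κ ℂ)).PosDef :=
      Matrix.PosDef.one.smul (Complex.zero_lt_real.2 he)
    exact Matrix.PosDef.posSemidef_add h1 (Matrix.PosDef.posSemidef_add h2 h4)
  obtain ⟨W, hW0⟩ := CStarAlgebra.nonneg_iff_eq_star_mul_self.mp hpd.inv.posSemidef.nonneg
  have hW : Wᴴ * W = X⁻¹ := hW0.symm
  have hXu : IsUnit X := hpd.isUnit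
  have hXX : X * X⁻¹ = 1 := Matrix.mul_nonsing_inv X ((Matrix.isUnit_iff_isUnit_det X).1 hXu)
  have hform : ∀ x, (ip x (X.mulVec x)).re =
      Helper25.HL.sq (Aᴴ.mulVec x) + Helper25.HL.sq (Gᴴ.mulVec x) := by
    intro x
    rw [hX, add_mulVec, ip_add, ip_mul_conj, hZ, ip_mul_conj, ← Complex.ofReal_add,
      Complex.ofReal_re]
  have hformG : ∀ x, Helper25.HL.sq (Gᴴ.mulVec x) =
      ε₃⁻¹ * Helper25.HL.sq (Bᴴ.mulVec x) + ϵ * Helper25.HL.sq x := by
    intro x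
    have h := ip_mul_conj G x
    rw [← hZ, hZ', add_mulVec, ip_add, smul_mulVec, smul_mulVec, ip_smul, ip_smul, ip_mul_conj,
      one_mulVec, ip_self] at h
    have h2 : ((ε₃⁻¹ * Helper25.HL.sq (Bᴴ.mulVec x) + ϵ * Helper25.HL.sq x : ℝ) : ℂ) =
        ((Helper25.HL.sq (Gᴴ.mulVec x) : ℝ) : ℂ) := by
      rw [← h]; push_cast; ring
    exact (Complex.ofReal_injective h2).symm
  have bA : ∀ v, Helper25.HL.sq (W.mulVec (A.mulVec v)) ≤ 1 * Helper25.HL.sq v := by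
    refine bnd hW hXu A zero_le_one fun x => ?_
    rw [hform]
    have := sq_nonneg' (Gᴴ.mulVec x)
    linarith
  have bG : ∀ v, Helper25.HL.sq (W.mulVec (G.mulVec v)) ≤ 1 * Helper25.HL.sq v := by
    refine bnd hW hXu G zero_le_one fun x => ?_
    rw [hform]
    have := sq_nonneg' (Aᴴ.mulVec x)
    linarith
  have bB : ∀ v, Helper25.HL.sq (W.mulVec (B.mulVec v)) ≤ ε₃ * Helper25.HL.sq v := by
    refine bnd hW hXu B h3.le fun x => ?_
    rw [hform, hformG]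
    have k1 := sq_nonneg' (Aᴴ.mulVec x)
    have k2 := sq_nonneg' x
    have k3 := sq_nonneg' (Bᴴ.mulVec x)
    have k4 : ε₃ * (ε₃⁻¹ * Helper25.HL.sq (Bᴴ.mulVec x)) = Helper25.HL.sq (Bᴴ.mulVec x) := by
      rw [← mul_assoc, mul_inv_cancel₀ h3.ne', one_mul]
    have k5 : 0 ≤ ε₃ * (Helper25.HL.sq (Aᴴ.mulVec x) + ϵ * Helper25.HL.sq x) := by positivity
    nlinarith
  have b1 : ∀ v, Helper25.HL.sq (W.mulVec ((1 : Matrix κ κ ℂ).mulVec v)) ≤
      ϵ⁻¹ * Helper25.HL.sq v := by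
    refine bnd hW hXu 1 (inv_nonneg.2 he.le) fun x => ?_
    rw [hform, hformG, conjTranspose_one, one_mulVec]
    have k1 := sq_nonneg' (Aᴴ.mulVec x)
    have k2 := sq_nonneg' x
    have k3 := sq_nonneg' (Bᴴ.mulVec x)
    have k4 : ϵ⁻¹ * (ϵ * Helper25.HL.sq x) = Helper25.HL.sq x := by
      rw [← mul_assoc, inv_mul_cancel₀ he.ne', one_mul]
    have k5 : 0 ≤ ϵ⁻¹ * (Helper25.HL.sq (Aᴴ.mulVec x) +
      ε₃⁻¹ * Helper25.HL.sq (Bᴴ.mulVec x)) := by positivity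
    nlinarith
  -- the Frobenius norms
  have cB : fro B = ∑ j, Helper25.HL.sq (b j) := rfl
  have hτ : fro G = (∑ j, Helper25.HL.sq (b j)) / ε₃ + ϵ * Fintype.card κ := by
    rw [hG, fro_fromCols, fro_smul, fro_smul, fro_one, Complex.norm_real, Complex.norm_real,
      Real.norm_eq_abs, Real.norm_eq_abs, sq_abs, sq_abs, hr2, he2, cB]
    ring
  have bWA : ∀ v, Helper25.HL.sq ((W * A).mulVec v) ≤ 1 * Helper25.HL.sq v := by
    intro v; rw [← mulVec_mulVec]; exact bA v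
  have bWB : ∀ v, Helper25.HL.sq ((W * B).mulVec v) ≤ ε₃ * Helper25.HL.sq v := by
    intro v; rw [← mulVec_mulVec]; exact bB v
  have bWG : ∀ v, Helper25.HL.sq ((W * G).mulVec v) ≤ 1 * Helper25.HL.sq v := by
    intro v; rw [← mulVec_mulVec]; exact bG v
  have aWA := adj (W * A) zero_le_one bWA
  have aWB := adj (W * B) h3.le bWB
  have fWA : fro (W * A) ≤ Fintype.card κ := by
    have h := fro_mul_le (W * A)ᴴ (1 : Matrix κ κ ℂ) aWA
    rw [Matrix.mul_one, fro_conjTranspose, fro_one, one_mul] at h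
    exact h
  have fWZ : fro (W * Z) ≤ fro G := by
    rw [hZ, ← Matrix.mul_assoc]
    have h := fro_mul_le (W * G) Gᴴ bWG
    rw [fro_conjTranspose, one_mul] at h
    exact h
  have hZh : Zᴴ = Z := by rw [hZ, conjTranspose_mul, conjTranspose_conjTranspose]
  have fA : fro (Z * (Wᴴ * (W * A))) ≤ fro G := by
    have h := fro_mul_le (W * A)ᴴ (W * Z) aWA
    rw [one_mul, ← fro_conjTranspose, conjTranspose_mul, conjTranspose_conjTranspose,
      conjTranspose_mul W Z, hZh, Matrix.mul_assoc] at h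
    exact h.trans fWZ
  have hG0 : 0 ≤ fro G := fro_nonneg G
  have fB : fro (Z * (Wᴴ * (W * B))) ≤ fro G := by
    have h := fro_mul_le (W * B)ᴴ (W * Z) aWB
    rw [← fro_conjTranspose, conjTranspose_mul, conjTranspose_conjTranspose,
      conjTranspose_mul W Z, hZh, Matrix.mul_assoc] at h
    have := fro_nonneg (W * Z)
    nlinarith
  have fB' : fro B ≤ fro G := by
    rw [hτ, cB]
    have h0 : 0 ≤ ∑ j, Helper25.HL.sq (b j) := Finset.sum_nonneg fun _ _ => sq_nonneg' _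
    have h1 : ∑ j, Helper25.HL.sq (b j) ≤ (∑ j, Helper25.HL.sq (b j)) / ε₃ := by
      rw [le_div_iff₀ h3]; nlinarith
    have h2 : 0 ≤ ϵ * (Fintype.card κ : ℝ) := by positivity
    linarith
  have hE : A * ((W * A)ᴴ * (W * (A + B))) - A =
      -(Z * (Wᴴ * (W * A))) + B + -(Z * (Wᴴ * (W * B))) := by
    have h1 : A * ((W * A)ᴴ * (W * (A + B))) = (A * Aᴴ) * (X⁻¹ * (A + B)) := by
      rw [conjTranspose_mul, ← hW]
      simp only [Matrix.mul_assoc]
    have h2 : A * Aᴴ = X - Z := by rw [hX, add_sub_cancel_right]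
    have h5 : ∀ M : Matrix κ ι ℂ, Wᴴ * (W * M) = X⁻¹ * M := by
      intro M; rw [← Matrix.mul_assoc, hW]
    rw [h1, h2, h5, h5, Matrix.sub_mul, ← Matrix.mul_assoc X, hXX, Matrix.one_mul,
      Matrix.mul_add, Matrix.mul_add]
    abel
  refine ⟨W, ?_, ?_, ?_, ?_, ?_⟩
  · intro v
    rw [sum_smul_eq]
    have := bA v
    rw [one_mul] at this
    exact this
  · intro v
    rw [sum_smul_eq]
    exact bB v
  · intro x
    have h := b1 x
    rw [one_mulVec] at h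
    have h5 := mul_le_mul_of_nonneg_left h he.le
    rw [← mul_assoc, mul_inv_cancel₀ he.ne', one_mul] at h5
    exact h5
  · exact fWA
  · have hcol : ∑ i, Helper25.HL.sq (∑ j, ip (W.mulVec (a j)) (W.mulVec (a i + b i)) • a j - a i) =
        fro (A * ((W * A)ᴴ * (W * (A + B))) - A) := by
      unfold fro
      refine Finset.sum_congr rfl fun i _ => ?_
      congr 1
      rw [sum_smul_eq]
      rfl
    rw [hcol, hE]
    have h := fro_add3 (-(Z * (Wᴴ * (W * A)))) B (-(Z * (Wᴴ * (W * B))))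
    have hneg : ∀ M : Matrix κ ι ℂ, fro (-M) = fro M := by
      intro M
      have := fro_smul (-1 : ℂ) M
      simpa using this
    rw [hneg, hneg] at h
    rw [← hτ]
    linarith

end Pool.Agent.Helper22.HL
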